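import Mathlib
import Pool.Agent.Results.MP_d08b2e_nt.LinearOrder

/-!
# The window length forcing sparsity of integers with a divisor in `(n, 2n)`: sharp constant

For `3/4 < ε < 1` the least window length is `n / (2ε - 1) + O(1)`, with explicit bounded error,
uniformly in `ε`; for all `0 < ε < 1` it has order `n`; for `ε ≥ 1` it is zero.

Upper bound.  An odd `m` with a medium divisor is an odd multiple of an odd `d` in `(n, 2n)`, and
odd multiples of `d` are `2d > 2n` apart; so a window of length `y ≤ 2n` contains at most `n/2` odd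
and `y/2` even medium integers, and a window of length `y ≥ 2n` at most about `3y/4`.
Lower bound.  In the window `(n, n + y)`, `n ≤ y ≤ 2n`, all integers below `2n` and all even
integers above `2n` are medium.
-/

set_option autoImplicit false

namespace Pool.Agent.Results.MP_d08b2e_nt.SharpWindowLength

open Pool.Agent.Results.MP_d08b2e_nt.LinearOrder

/-- odd numbers of an open interval -/
lemma card_odd (a b : ℕ) :
    2 * ((Finset.Ioo a b).filter (fun d => d % 2 = 1)).card ≤ b - a := by
  have h : ((Finset.Ioo a b).filter (fun d => d % 2 = 1)).card ≤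
      (Finset.Ico ((a + 1) / 2) (b / 2)).card := by
    apply Finset.card_le_card_of_injOn (fun d => d / 2)
    · intro d hd
      simp only [Finset.coe_filter, Finset.mem_Ioo, Set.mem_ofPred_eq] at hd
      simp only [Finset.coe_Ico, Set.mem_Ico]
      omega
    · intro d hd e he hde
      simp only [Finset.coe_filter, Finset.mem_Ioo, Set.mem_ofPred_eq] at hd he
      simp only at hde
      omega
  rw [Nat.card_Ico] at h
  omega

/-- even numbers of a window -/
lemma card_even (x y : ℕ) :
    2 * ((Finset.Ioo x (x + y)).filter (fun d => d % 2 = 0)).card ≤ y := by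
  have h : ((Finset.Ioo x (x + y)).filter (fun d => d % 2 = 0)).card ≤
      (Finset.Ico (x / 2 + 1) ((x + y + 1) / 2)).card := by
    apply Finset.card_le_card_of_injOn (fun d => d / 2)
    · intro d hd
      simp only [Finset.coe_filter, Finset.mem_Ioo, Set.mem_ofPred_eq] at hd
      simp only [Finset.coe_Ico, Set.mem_Ico]
      omega
    · intro d hd e he hde
      simp only [Finset.coe_filter, Finset.mem_Ioo, Set.mem_ofPred_eq] at hd he
      simp only at hde
      omega
  rw [Nat.card_Ico] at h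
  omega

open Classical in
/-- the odd medium integers of a window -/
noncomputable def S (n x y : ℕ) : Finset ℕ :=
  (Finset.Ioo x (x + y)).filter (fun m => m % 2 = 1 ∧ HasMediumDivisor n m)

lemma mem_S {n x y m : ℕ} : m ∈ S n x y ↔
    (x < m ∧ m < x + y) ∧ m % 2 = 1 ∧ HasMediumDivisor n m := by
  classical
  unfold S
  rw [Finset.mem_filter, Finset.mem_Ioo]

lemma numMedium_le (n x y : ℕ) : 2 * numMedium n x y ≤ y + 2 * (S n x y).card := by
  classical
  have h1 : {m : ℕ | x < m ∧ m < x + y ∧ HasMediumDivisor n m} ⊆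
      (((Finset.Ioo x (x + y)).filter (fun d => d % 2 = 0) ∪ S n x y : Finset ℕ) : Set ℕ) := by
    rintro m ⟨h1, h2, h3⟩
    rw [Finset.mem_coe, Finset.mem_union, Finset.mem_filter, Finset.mem_Ioo, mem_S]
    rcases Nat.mod_two_eq_zero_or_one m with h | h
    · exact Or.inl ⟨⟨h1, h2⟩, h⟩
    · exact Or.inr ⟨⟨h1, h2⟩, h, h3⟩
  have h2 : numMedium n x y ≤
      ((Finset.Ioo x (x + y)).filter (fun d => d % 2 = 0) ∪ S n x y).card := by
    rw [numMedium, ← Set.ncard_coe_finset]
    exact Set.ncard_le_ncard h1 (Finset.finite_toSet _)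
  have h3 := Finset.card_union_le ((Finset.Ioo x (x + y)).filter (fun d => d % 2 = 0)) (S n x y)
  have h4 := card_even x y
  omega

/-- two different odd multiples of `d` differ by at least `2d` -/
lemma gap {d m m' : ℕ} (h : d ∣ m) (h' : d ∣ m') (hm : m % 2 = 1) (hm' : m' % 2 = 1)
    (hlt : m < m') : m + 2 * d ≤ m' := by
  obtain ⟨k, rfl⟩ := h
  obtain ⟨k', rfl⟩ := h'
  have hk : k % 2 = 1 := by
    rcases Nat.mod_two_eq_zero_or_one k with h | h
    · rw [Nat.mul_mod, h, mul_zero, Nat.zero_mod] at hm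
      omega
    · exact h
  have hk' : k' % 2 = 1 := by
    rcases Nat.mod_two_eq_zero_or_one k' with h | h
    · rw [Nat.mul_mod, h, mul_zero, Nat.zero_mod] at hm'
      omega
    · exact h
  have hkk : k < k' := lt_of_mul_lt_mul_left hlt (Nat.zero_le d)
  have h2 : k + 2 ≤ k' := by omega
  calc d * k + 2 * d = d * (k + 2) := by ring
    _ ≤ d * k' := Nat.mul_le_mul_left d h2

lemma odd_of_dvd {d m : ℕ} (h : d ∣ m) (hm : m % 2 = 1) : d % 2 = 1 := by
  obtain ⟨k, rfl⟩ := h
  rcases Nat.mod_two_eq_zero_or_one d with h | h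
  · rw [Nat.mul_mod, h, zero_mul, Nat.zero_mod] at hm
    omega
  · exact h

open Classical in
/-- a medium divisor -/
noncomputable def δ (n m : ℕ) : ℕ :=
  if h : HasMediumDivisor n m then Classical.choose h else 0

lemma δ_spec {n m : ℕ} (h : HasMediumDivisor n m) : n < δ n m ∧ δ n m < 2 * n ∧ δ n m ∣ m := by
  classical
  unfold δ
  rw [dif_pos h]
  exact Classical.choose_spec h

/-- short windows contain at most `n/2` odd medium integers -/
lemma S_short {n x y : ℕ} (hy : y ≤ 2 * n + 2) : 2 * (S n x y).card ≤ n := by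
  have h : (S n x y).card ≤ ((Finset.Ioo n (2 * n)).filter (fun d => d % 2 = 1)).card := by
    apply Finset.card_le_card_of_injOn (fun m => δ n m)
    · intro m hm
      rw [Finset.mem_coe, mem_S] at hm
      obtain ⟨h1, h2, h3⟩ := δ_spec hm.2.2
      rw [Finset.mem_coe, Finset.mem_filter, Finset.mem_Ioo]
      exact ⟨⟨h1, h2⟩, odd_of_dvd h3 hm.2.1⟩
    · intro m hm m' hm' he
      rw [Finset.mem_coe, mem_S] at hm hm'
      obtain ⟨h1, h2, h3⟩ := δ_spec hm.2.2
      obtain ⟨h1', h2', h3'⟩ := δ_spec hm'.2.2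
      simp only at he
      rw [← he] at h3'
      rcases lt_trichotomy m m' with hlt | heq | hlt
      · have := gap h3 h3' hm.2.1 hm'.2.1 hlt
        omega
      · exact heq
      · have := gap h3' h3 hm'.2.1 hm.2.1 hlt
        omega
  have h2 := card_odd n (2 * n)
  omega

/-- windows of length between `2n` and `4n` -/
lemma S_mid {n x y : ℕ} (hy : 2 * n ≤ y) (hy' : y ≤ 4 * n) : 4 * (S n x y).card ≤ y + 2 := by
  classical
  have hsplit := Finset.card_filter_add_card_filter_not (s := S n x y)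
    (fun m => x + 2 * δ n m < m)
  have hhigh : ((S n x y).filter (fun m => ¬ (x + 2 * δ n m < m))).card ≤
      ((Finset.Ioo n (2 * n)).filter (fun d => d % 2 = 1)).card := by
    apply Finset.card_le_card_of_injOn (fun m => δ n m)
    · intro m hm
      rw [Finset.mem_coe, Finset.mem_filter, mem_S] at hm
      obtain ⟨h1, h2, h3⟩ := δ_spec hm.1.2.2
      rw [Finset.mem_coe, Finset.mem_filter, Finset.mem_Ioo]
      exact ⟨⟨h1, h2⟩, odd_of_dvd h3 hm.1.2.1⟩
    · intro m hm m' hm' he
      rw [Finset.mem_coe, Finset.mem_filter, mem_S] at hm hm'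
      obtain ⟨h1, h2, h3⟩ := δ_spec hm.1.2.2
      obtain ⟨h1', h2', h3'⟩ := δ_spec hm'.1.2.2
      simp only at he
      rw [← he] at h3'
      rcases lt_trichotomy m m' with hlt | heq | hlt
      · have := gap h3 h3' hm.1.2.1 hm'.1.2.1 hlt
        omega
      · exact heq
      · have := gap h3' h3 hm'.1.2.1 hm.1.2.1 hlt
        omega
  have hlow : ((S n x y).filter (fun m => x + 2 * δ n m < m)).card ≤
      ((Finset.Ioo n ((y + 1) / 2)).filter (fun d => d % 2 = 1)).card := by
    apply Finset.card_le_card_of_injOn (fun m => δ n m)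
    · intro m hm
      rw [Finset.mem_coe, Finset.mem_filter, mem_S] at hm
      obtain ⟨h1, h2, h3⟩ := δ_spec hm.1.2.2
      rw [Finset.mem_coe, Finset.mem_filter, Finset.mem_Ioo]
      refine ⟨⟨h1, ?_⟩, odd_of_dvd h3 hm.1.2.1⟩
      show δ n m < (y + 1) / 2
      omega
    · intro m hm m' hm' he
      rw [Finset.mem_coe, Finset.mem_filter, mem_S] at hm hm'
      obtain ⟨h1, h2, h3⟩ := δ_spec hm.1.2.2
      obtain ⟨h1', h2', h3'⟩ := δ_spec hm'.1.2.2
      simp only at he
      rw [← he] at h3'
      rcases lt_trichotomy m m' with hlt | heq | hlt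
      · have := gap h3 h3' hm.1.2.1 hm'.1.2.1 hlt
        omega
      · exact heq
      · have := gap h3' h3 hm'.1.2.1 hm.1.2.1 hlt
        omega
  have h2 := card_odd n (2 * n)
  have h3 := card_odd n ((y + 1) / 2)
  omega

lemma numMedium_split (n x a b : ℕ) :
    numMedium n x (a + b) ≤ numMedium n x a + 1 + numMedium n (x + a) b := by
  have h1 : {m : ℕ | x < m ∧ m < x + (a + b) ∧ HasMediumDivisor n m} ⊆
      ({m : ℕ | x < m ∧ m < x + a ∧ HasMediumDivisor n m} ∪ {x + a}) ∪
        {m : ℕ | x + a < m ∧ m < x + a + b ∧ HasMediumDivisor n m} := by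
    rintro m ⟨h1, h2, h3⟩
    rcases lt_trichotomy m (x + a) with h | h | h
    · exact Or.inl (Or.inl ⟨h1, h, h3⟩)
    · exact Or.inl (Or.inr h)
    · exact Or.inr ⟨h, by omega, h3⟩
  have hfin : ∀ u v : ℕ, {m : ℕ | u < m ∧ m < v ∧ HasMediumDivisor n m}.Finite := fun u v =>
    (Set.finite_Ioo u v).subset (fun m hm => ⟨hm.1, hm.2.1⟩)
  have h2 := Set.ncard_le_ncard h1 (((hfin _ _).union (Set.finite_singleton _)).union (hfin _ _))
  have h3 := Set.ncard_union_le ({m : ℕ | x < m ∧ m < x + a ∧ HasMediumDivisor n m} ∪ {x + a})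
    {m : ℕ | x + a < m ∧ m < x + a + b ∧ HasMediumDivisor n m}
  have h4 := Set.ncard_union_le {m : ℕ | x < m ∧ m < x + a ∧ HasMediumDivisor n m} {x + a}
  rw [Set.ncard_singleton] at h4
  unfold numMedium
  omega

/-- all long windows -/
lemma long (n : ℕ) (hn : 0 < n) : ∀ y : ℕ, 2 * n ≤ y → ∀ x : ℕ,
    4 * n * numMedium n x y ≤ (3 * n + 3) * y := by
  intro y
  induction y using Nat.strong_induction_on with
  | _ y ih =>
    intro hy x
    rcases le_or_gt y (4 * n) with h | h
    · have h1 := numMedium_le n x y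
      have h2 := S_mid (x := x) hy h
      have h3 : 4 * numMedium n x y ≤ 3 * y + 2 := by omega
      calc 4 * n * numMedium n x y = n * (4 * numMedium n x y) := by ring
        _ ≤ n * (3 * y + 2) := Nat.mul_le_mul_left n h3
        _ = 3 * n * y + 2 * n := by ring
        _ ≤ 3 * n * y + 3 * y := by omega
        _ = _ := by ring
    · obtain ⟨b, rfl⟩ : ∃ b, y = 2 * n + b := ⟨y - 2 * n, by omega⟩
      have h1 := ih b (by omega) (by omega) (x + 2 * n)
      have h2 := numMedium_le n x (2 * n)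
      have h3 := S_mid (n := n) (x := x) (y := 2 * n) le_rfl (by omega)
      have h4 : 4 * numMedium n x (2 * n) ≤ 6 * n + 2 := by omega
      have h5 := numMedium_split n x (2 * n) b
      calc 4 * n * numMedium n x (2 * n + b)
          ≤ 4 * n * (numMedium n x (2 * n) + 1 + numMedium n (x + 2 * n) b) :=
            Nat.mul_le_mul_left _ h5
        _ = n * (4 * numMedium n x (2 * n)) + 4 * n + 4 * n * numMedium n (x + 2 * n) b := by ring
        _ ≤ n * (6 * n + 2) + 4 * n + (3 * n + 3) * b := by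
            have := Nat.mul_le_mul_left n h4
            omega
        _ = (3 * n + 3) * (2 * n + b) := by ring

/-- short windows -/
lemma short {n x y : ℕ} (hy : y ≤ 2 * n) : 2 * numMedium n x y ≤ y + n := by
  have h1 := numMedium_le n x y
  have h2 := S_short (n := n) (x := x) (y := y) (by omega)
  omega

/-- the window `(n, n + y)` -/
lemma start {n y : ℕ} (hn : 1 ≤ n) (h1 : n ≤ y) (h2 : y ≤ 2 * n) :
    n + y ≤ 2 * numMedium n n y + 4 := by
  classical
  have hsub : ((Finset.Ioo n (2 * n) ∪ (Finset.Ioo n ((n + y + 1) / 2)).image (fun d => 2 * d) :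
      Finset ℕ) : Set ℕ) ⊆ {m : ℕ | n < m ∧ m < n + y ∧ HasMediumDivisor n m} := by
    intro m hm
    rw [Finset.mem_coe, Finset.mem_union, Finset.mem_Ioo, Finset.mem_image] at hm
    rcases hm with hm | ⟨d, hd, rfl⟩
    · exact ⟨hm.1, by omega, m, hm.1, hm.2, dvd_rfl⟩
    · rw [Finset.mem_Ioo] at hd
      exact ⟨by omega, by omega, d, hd.1, by omega, Dvd.intro_left 2 rfl⟩
  have hcard : (Finset.Ioo n (2 * n) ∪ (Finset.Ioo n ((n + y + 1) / 2)).image
      (fun d => 2 * d)).card = (n - 1) + ((n + y + 1) / 2 - n - 1) := by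
    rw [Finset.card_union_of_disjoint, Finset.card_image_of_injective, Nat.card_Ioo, Nat.card_Ioo]
    · congr 1
      omega
    · intro a b hab
      simp only at hab
      omega
    · rw [Finset.disjoint_left]
      intro m hm hm'
      rw [Finset.mem_Ioo] at hm
      rw [Finset.mem_image] at hm'
      obtain ⟨d, hd, rfl⟩ := hm'
      rw [Finset.mem_Ioo] at hd
      omega
  have h3 : (n - 1) + ((n + y + 1) / 2 - n - 1) ≤ numMedium n n y := by
    rw [← hcard, ← Set.ncard_coe_finset, numMedium]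
    exact Set.ncard_le_ncard hsub
      ((Set.finite_Ioo n (n + y)).subset (fun m hm => ⟨hm.1, hm.2.1⟩))
  omega

/-- **Sharp window length.**  For `3/4 < ε < 1` the least window length beyond which every window
of length `y` contains at most `ε y` integers with a divisor in `(n, 2n)` is
`n / (2 ε - 1) + O(1)`, uniformly. -/
theorem sharp (ε : ℝ) (h0 : 3 / 4 < ε) (h1 : ε < 1) (n : ℕ) (hn : 3 ≤ n * (4 * ε - 3))
    (hn' : 2 < n * (1 - ε)) : ∃ Y : ℕ, windowLength ε n = Y ∧
      (n - 4) / (2 * ε - 1) ≤ (Y : ℝ) ∧ (Y : ℝ) < n / (2 * ε - 1) + 1 := by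
  have he : 0 < 2 * ε - 1 := by linarith
  have hnpos : 0 < n := by
    rcases Nat.eq_zero_or_pos n with h | h
    · subst h
      norm_num at hn'
    · exact h
  have hnR : (0 : ℝ) < n := by exact_mod_cast hnpos
  have hadm : Admissible ε n ⌈(n : ℝ) / (2 * ε - 1)⌉₊ := by
    intro x y hy
    have hyR : (n : ℝ) / (2 * ε - 1) ≤ y := (Nat.le_ceil _).trans (by exact_mod_cast hy)
    rw [div_le_iff₀ he] at hyR
    rcases le_or_gt y (2 * n) with h | h
    · have h2 := short (x := x) h
      have h3 : (2 : ℝ) * numMedium n x y ≤ y + n := by exact_mod_cast h2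
      linarith
    · have h2 := long n hnpos y h.le x
      have h3 : (4 : ℝ) * n * numMedium n x y ≤ (3 * n + 3) * y := by exact_mod_cast h2
      have h4 : (3 * (n : ℝ) + 3) ≤ 4 * n * ε := by linarith
      have h5 : (3 * (n : ℝ) + 3) * y ≤ 4 * n * ε * y :=
        mul_le_mul_of_nonneg_right h4 (Nat.cast_nonneg y)
      have h6 : (4 * n : ℝ) * numMedium n x y ≤ (4 * n) * (ε * y) := by
        calc (4 * n : ℝ) * numMedium n x y ≤ 4 * n * ε * y := h3.trans h5
          _ = _ := by ring
      exact le_of_mul_le_mul_left h6 (by positivity)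
  have h5 := windowLength_le hadm
  obtain ⟨Y, hY⟩ : ∃ Y : ℕ, windowLength ε n = Y := by
    have : windowLength ε n ≠ ⊤ := ne_top_of_le_ne_top (ENat.natCast_ne_top _) h5
    exact ⟨(windowLength ε n).toNat, (ENat.natCast_toNat this).symm⟩
  refine ⟨Y, hY, ?_, ?_⟩
  · by_contra hcon
    push Not at hcon
    rw [lt_div_iff₀ he] at hcon
    -- the window of length `max Y n`
    have hY2 : max Y n ≤ 2 * n := by
      apply max_le _ (by omega)
      have h6 : (Y : ℝ) ≤ 2 * n := by
        by_contra hc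
        push Not at hc
        nlinarith
      exact_mod_cast h6
    have h6 := start hnpos (le_max_right Y n) hY2
    have h7 : (n : ℝ) + (max Y n : ℕ) ≤ 2 * numMedium n n (max Y n) + 4 := by exact_mod_cast h6
    have h8 : ((max Y n : ℕ) : ℝ) * (2 * ε - 1) < n - 4 := by
      rcases le_total Y n with h | h
      · rw [max_eq_right h]
        nlinarith
      · rw [max_eq_left h]
        exact hcon
    have h9 : ε * ((max Y n : ℕ) : ℝ) < (numMedium n n (max Y n) : ℝ) := by
      nlinarith
    have h10 := lt_windowLength h9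
    rw [hY] at h10
    have h11 : max Y n + 1 ≤ Y := by exact_mod_cast h10
    have h12 := le_max_left Y n
    omega
  · rw [hY] at h5
    have h6 : Y ≤ ⌈(n : ℝ) / (2 * ε - 1)⌉₊ := by exact_mod_cast h5
    have h7 : (Y : ℝ) ≤ (⌈(n : ℝ) / (2 * ε - 1)⌉₊ : ℝ) := by exact_mod_cast h6
    exact h7.trans_lt (Nat.ceil_lt_add_one (by positivity))

/-- **Main result.**  The window length `y(ε, n)`: for `3/4 < ε < 1` it is `n / (2 ε - 1) + O(1)`,
with explicit error and range; for every `0 < ε < 1` it is of order `n`; for `ε ≥ 1` it is `0`. -/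
theorem result :
    (∀ ε : ℝ, 3 / 4 < ε → ε < 1 → ∀ n : ℕ, 3 ≤ n * (4 * ε - 3) → 2 < n * (1 - ε) →
      ∃ Y : ℕ, windowLength ε n = Y ∧
        (n - 4) / (2 * ε - 1) ≤ (Y : ℝ) ∧ (Y : ℝ) < n / (2 * ε - 1) + 1) ∧
    (∀ ε : ℝ, 0 < ε → ε < 1 → ∃ N : ℕ, ∀ n ≥ N, ∃ Y : ℕ, windowLength ε n = Y ∧
      Real.exp ((1 / ε - 1) / 60) * n ≤ Y ∧ (Y : ℝ) ≤ Real.exp ((100 / ε) ^ 41) * n) ∧
    (∀ ε : ℝ, 1 ≤ ε → ∀ n : ℕ, windowLength ε n = 0) :=
  ⟨fun ε h0 h1 n hn hn' => sharp ε h0 h1 n hn hn', LinearOrder.result.1, LinearOrder.result.2⟩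

end Pool.Agent.Results.MP_d08b2e_nt.SharpWindowLength
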